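import Pool.Agent.H18.KC.Stmts

/-!
# KLS, part C: near symmetry of the sequence (modules NSY, WSY)
-/

set_option autoImplicit false

open Finset

namespace Pool.Agent.H18.KC

section NSY

variable {ι E : Type} [Fintype ι] [NormedAddCommGroup E] [InnerProductSpace ℝ E] {t Q : ℝ}

theorem NSY_perp (D : Dat ι E t Q) (h0 : E) (h : inner ℝ D.e h0 = 0) :
    ∀ (k : ℕ) (I : Fin k → ι), inner ℝ D.e (D.hs h0 k I) = 0
  | 0, _ => h
  | k + 1, I => D.inner_e_A (I 0) (D.hs h0 k (Fin.tail I))

theorem NSY_perp_sub (D : Dat ι E t Q) (h0 : E) (h : inner ℝ D.e h0 = 0) (k : ℕ)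
    (I J : Fin k → ι) : inner ℝ D.e (D.hs h0 k I - D.hs h0 k J) = 0 := by
  rw [inner_sub_right, NSY_perp D h0 h, NSY_perp D h0 h, sub_zero]

theorem NSY_cons (k j : ℕ) (h : j + 1 < k) (i : ι) (J : Fin k → ι) :
    ((Fin.cons i J : Fin (k + 1) → ι) ∘ Equiv.swap (⟨j + 1, by omega⟩ : Fin (k + 1))
      ⟨j + 1 + 1, by omega⟩) =
    Fin.cons i (J ∘ Equiv.swap (⟨j, by omega⟩ : Fin k) ⟨j + 1, h⟩) := by
  funext a
  refine Fin.cases ?_ (fun b => ?_) a
  · have : Equiv.swap (⟨j + 1, by omega⟩ : Fin (k + 1)) ⟨j + 1 + 1, by omega⟩ 0 = 0 := by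
      apply Equiv.swap_apply_of_ne_of_ne
      · intro h
        have := congrArg Fin.val h
        simp at this
      · intro h
        have := congrArg Fin.val h
        simp at this
    simp only [Function.comp_apply, this, Fin.cons_zero]
  · have : Equiv.swap (⟨j + 1, by omega⟩ : Fin (k + 1)) ⟨j + 1 + 1, by omega⟩ b.succ =
        (Equiv.swap (⟨j, by omega⟩ : Fin k) ⟨j + 1, h⟩ b).succ := by
      have e1 : (⟨j + 1, by omega⟩ : Fin (k + 1)) = Fin.succ (⟨j, by omega⟩ : Fin k) := rfl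
      have e2 : (⟨j + 1 + 1, by omega⟩ : Fin (k + 1)) = Fin.succ (⟨j + 1, h⟩ : Fin k) := rfl
      rw [e1, e2, Equiv.swap_apply_def, Equiv.swap_apply_def]
      simp only [Fin.succ_inj]
      split_ifs <;> rfl
    simp only [Function.comp_apply, this, Fin.cons_succ]

theorem NSY_step (D : Dat ι E t Q) (L : ℝ) (h0 : E) (h : inner ℝ D.e h0 = 0)
    (hA : ∀ h, inner ℝ D.e h = 0 → ∑ i, ‖D.A i h‖ ^ 2 ≤ L * ‖h‖ ^ 2) (k j : ℕ)
    (hj : j + 1 < k) : D.R h0 (k + 1) (j + 1) ≤ L * D.R h0 k j := by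
  unfold Dat.R
  rw [dif_pos (show j + 1 + 1 < k + 1 by omega), dif_pos hj, Finset.mul_sum]
  rw [← Fintype.sum_equiv (Fin.consEquiv (fun _ : Fin (k + 1) => ι))
    (fun y : ι × (Fin k → ι) => ‖D.hs h0 (k + 1) (Fin.cons y.1 y.2) -
      D.hs h0 (k + 1) ((Fin.cons y.1 y.2 : Fin (k + 1) → ι) ∘
        Equiv.swap (⟨j + 1, by omega⟩ : Fin (k + 1)) ⟨j + 1 + 1, by omega⟩)‖ ^ 2) _
      (fun y => rfl), Fintype.sum_prod_type, Finset.sum_comm]
  refine Finset.sum_le_sum fun J _ => ?_
  have := hA (D.hs h0 k J - D.hs h0 k (J ∘ Equiv.swap (⟨j, by omega⟩ : Fin k) ⟨j + 1, hj⟩))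
    (NSY_perp_sub D h0 h k _ _)
  refine le_trans (le_of_eq ?_) this
  refine Finset.sum_congr rfl fun i _ => ?_
  rw [NSY_cons k j hj i J, map_sub]
  rfl

/-- the head and the tail of a word -/
def NSY_split (ι : Type) (N m : ℕ) (hm : m ≤ N) :
    (Fin N → ι) ≃ (Fin m → ι) × (Fin (N - m) → ι) where
  toFun I := (fun i => I (Fin.castLE hm i), fun j => I ⟨m + j, by omega⟩)
  invFun y := fun i => if h : i.1 < m then y.1 ⟨i.1, h⟩ else y.2 ⟨i.1 - m, by omega⟩
  left_inv I := by
    funext i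
    by_cases h : i.1 < m
    · simp only [h, dif_pos]
      rfl
    · simp only [h, dif_neg, not_false_eq_true]
      congr 1
      apply Fin.ext
      show m + (i.1 - m) = i.1
      omega
  right_inv y := by
    refine Prod.ext ?_ ?_
    · funext i
      have h : (Fin.castLE hm i).1 < m := i.2
      simp only [h, dif_pos]
      rfl
    · funext j
      have h : ¬ (m + j.1 < m) := by omega
      simp only [h, dif_neg, not_false_eq_true]
      exact congrArg y.2 (Fin.ext (show m + j.1 - m = j.1 by omega))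

end NSY

/-- NSY: older exchanges -/
theorem nsy_thm : NSYStmt := by
  intro ι E _ _ _ t Q D L h0 h hL hA k j
  induction j generalizing k with
  | zero =>
    intro _
    rw [pow_zero, one_mul, Nat.sub_zero]
  | succ j ih =>
    intro hk
    obtain ⟨k, rfl⟩ : ∃ k', k = k' + 1 := ⟨k - 1, by omega⟩
    have h1 := NSY_step D L h0 h hA k j (by omega)
    have h2 := ih k (by omega)
    have h3 : k + 1 - (j + 1) = k - j := by omega
    rw [h3, pow_succ]
    calc D.R h0 (k + 1) (j + 1) ≤ L * D.R h0 k j := h1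
      _ ≤ L * (L ^ j * D.R h0 (k - j) 0) := mul_le_mul_of_nonneg_left h2 hL
      _ = _ := by ring

/-- WSY: exchange of positions of the second kind -/
theorem wsy_thm : WSYStmt := by
  intro ι E _ _ _ t Q D h0 h k m j hj hjk
  have hm : m + 1 ≤ k + 1 := by omega
  have e0 : k - m = k + 1 - (m + 1) := by omega
  have p1 : pos k j = ⟨j, by omega⟩ := by
    apply Fin.ext
    show j % (k + 1) = j
    exact Nat.mod_eq_of_lt (by omega)
  have p2 : pos k (j + 1) = ⟨j + 1, by omega⟩ := by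
    apply Fin.ext
    show (j + 1) % (k + 1) = j + 1
    exact Nat.mod_eq_of_lt (by omega)
  rw [p1, p2, e0]
  have hR : j - (m + 1) + 1 < k + 1 - (m + 1) := by omega
  unfold Dat.R
  rw [dif_pos hR, EuclideanSpace.real_norm_sq_eq, Finset.mul_sum]
  -- the tensor at a word
  have key : ∀ I : Fin (k + 1) → ι,
      (D.W h0 (k + 1) (m + 1) - rho ι (k + 1) (Equiv.swap (⟨j, by omega⟩ : Fin (k + 1))
        ⟨j + 1, by omega⟩) (D.W h0 (k + 1) (m + 1))) I =
      D.P (m + 1) (NSY_split ι (k + 1) (m + 1) hm I).1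
        (D.hs h0 (k + 1 - (m + 1)) (NSY_split ι (k + 1) (m + 1) hm I).2 -
          D.hs h0 (k + 1 - (m + 1)) ((NSY_split ι (k + 1) (m + 1) hm I).2 ∘
            Equiv.swap (⟨j - (m + 1), by omega⟩ : Fin (k + 1 - (m + 1)))
              ⟨j - (m + 1) + 1, hR⟩)) := by
    intro I
    rw [map_sub]
    show D.W h0 (k + 1) (m + 1) I - rho ι (k + 1) _ (D.W h0 (k + 1) (m + 1)) I = _
    rw [rho_apply]
    unfold Dat.W
    simp only [dif_pos hm]
    congr 1
    have c1 : (fun i : Fin (m + 1) => (I ∘ Equiv.swap (⟨j, by omega⟩ : Fin (k + 1))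
        ⟨j + 1, by omega⟩) (Fin.castLE hm i)) = (NSY_split ι (k + 1) (m + 1) hm I).1 := by
      funext i
      show I _ = I _
      congr 1
      apply Equiv.swap_apply_of_ne_of_ne
      · intro hh
        have := congrArg Fin.val hh
        simp only [Fin.val_castLE] at this
        omega
      · intro hh
        have := congrArg Fin.val hh
        simp only [Fin.val_castLE] at this
        omega
    have c2 : (fun a : Fin (k + 1 - (m + 1)) => (I ∘ Equiv.swap (⟨j, by omega⟩ : Fin (k + 1))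
        ⟨j + 1, by omega⟩) ⟨m + 1 + a, by omega⟩) = ((NSY_split ι (k + 1) (m + 1) hm I).2 ∘
            Equiv.swap (⟨j - (m + 1), by omega⟩ : Fin (k + 1 - (m + 1)))
              ⟨j - (m + 1) + 1, hR⟩) := by
      funext a
      show I _ = I _
      congr 1
      rw [Equiv.swap_apply_def, Equiv.swap_apply_def]
      by_cases h1 : a.1 = j - (m + 1)
      · have h1' : a = ⟨j - (m + 1), by omega⟩ := Fin.ext h1
        have h1'' : (⟨m + 1 + a.1, by omega⟩ : Fin (k + 1)) = ⟨j, by omega⟩ :=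
          Fin.ext (show m + 1 + a.1 = j by omega)
        rw [if_pos h1'', if_pos h1']
        apply Fin.ext
        show j + 1 = m + 1 + (j - (m + 1) + 1)
        omega
      · have h1' : ¬ a = ⟨j - (m + 1), by omega⟩ := fun hh => h1 (congrArg Fin.val hh)
        have h1'' : ¬ (⟨m + 1 + a.1, by omega⟩ : Fin (k + 1)) = ⟨j, by omega⟩ := fun hh => by
          have := congrArg Fin.val hh
          simp only at this
          omega
        rw [if_neg h1'', if_neg h1']
        by_cases h2 : a.1 = j - (m + 1) + 1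
        · have h2' : a = ⟨j - (m + 1) + 1, hR⟩ := Fin.ext h2
          have h2'' : (⟨m + 1 + a.1, by omega⟩ : Fin (k + 1)) = ⟨j + 1, by omega⟩ :=
            Fin.ext (show m + 1 + a.1 = j + 1 by omega)
          rw [if_pos h2'', if_pos h2']
          apply Fin.ext
          show j = m + 1 + (j - (m + 1))
          omega
        · have h2' : ¬ a = ⟨j - (m + 1) + 1, hR⟩ := fun hh => h2 (congrArg Fin.val hh)
          have h2'' : ¬ (⟨m + 1 + a.1, by omega⟩ : Fin (k + 1)) = ⟨j + 1, by omega⟩ := fun hh => by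
            have := congrArg Fin.val hh
            simp only at this
            omega
          rw [if_neg h2'', if_neg h2']
    rw [c1, c2]
  rw [Fintype.sum_equiv (NSY_split ι (k + 1) (m + 1) hm) _
    (fun y => (D.P (m + 1) y.1 (D.hs h0 (k + 1 - (m + 1)) y.2 -
          D.hs h0 (k + 1 - (m + 1)) (y.2 ∘
            Equiv.swap (⟨j - (m + 1), by omega⟩ : Fin (k + 1 - (m + 1)))
              ⟨j - (m + 1) + 1, hR⟩))) ^ 2) (fun I => by rw [key I]),
    Fintype.sum_prod_type, Finset.sum_comm]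
  refine Finset.sum_le_sum fun J _ => ?_
  exact D.Pbd m (D.hs h0 (k + 1 - (m + 1)) J -
          D.hs h0 (k + 1 - (m + 1)) (J ∘
            Equiv.swap (⟨j - (m + 1), by omega⟩ : Fin (k + 1 - (m + 1)))
              ⟨j - (m + 1) + 1, hR⟩)) (NSY_perp_sub D h0 h (k + 1 - (m + 1)) _ _)

end Pool.Agent.H18.KC
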