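import Pool.Agent.H7.IA.Stmts
import Pool.Agent.H7.JB.Stmts
import Pool.Agent.H7.GY.Stmts

/-!
# Cliques with `t ≥ 4` vertices, more residues: board `kc` (MP_fd41b2_co)

`b = p + 3 = ω - 1`, `u = w + 2 = t - 1`, `w ≥ 1`, `Δ = (p + 3) a + r`, `c₁ = c1 p w = choose (b-1) (w+1)`, `φ = pt p w r`.
The theorem of the board `ia` with weaker conditions: exceptional vertices of `N(v)` may owe `ndj` to `v`, as in the boards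
`gu8`, `gx10`, `jb` (`t = 3`): a vertex which is not good pays (BDJ, BUJ), two good strangers owe nothing (GGJ). Row `XXX` = `def
XXXStmt : Prop`; file `Pool/Agent/H<k>/KC/XXX.lean`, `import Pool.Agent.H7.KC.Stmts`, namespace `Pool.KC7`, `open
Pool.Agent.H23.KT Pool.Agent.H46.KW Pool.KQ Pool.GT7 Pool.GU7 Pool.HZ7 Pool.IA7`. Most rows are rows of the boards
`jb` (`Pool.JB7`, `Pool/Agent/H*/JB`, `t = 3`) with `(w+1)`-cliques in place of vertices and `a^(w+1)` in place of `a`, or rows of `ia`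
(`Pool.IA7`, `Pool/Agent/H*/IA`): copy and change. For `B = card (nb G L z)` let `S B = c₁ (1-φ) + φ c₁ ww B`, `ww = ww p r`.
Since `φ/(b-r) = (w+1)/(2r)`: `S B = c₁ ((w+3)/2 - (w+1) b/(2 q))` for `q = B + 1 ≥ r` (the right side is `≤ S B` for all `q`).
-/

set_option autoImplicit false

open Finset

namespace Pool.KC7

open Pool.Agent.H23.KT Pool.Agent.H46.KW Pool.KQ Pool.GT7 Pool.GU7 Pool.HZ7 Pool.IA7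

/-- The conditions of the theorem. -/
structure PrJ (p w r : ℕ) : Prop where
  w1 : 1 ≤ w
  wp : w ≤ p
  rp : r ≤ p
  s1 : (w + 1) * (p + 3 - r) < 2 * r
  s2 : 2 * r * (w + 3) * (r - 1).choose (w + 1) +
    (w + 2) * (w + 1) * (p + 3 - r) * (p + 2).choose (w + 1) <
      2 * r * (w + 3) * (p + 2).choose (w + 1)
  p6 : w = 1 → 6 ≤ p

/-- Weak conditions. -/
structure PrV (p w r : ℕ) : Prop where
  w1 : 1 ≤ w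
  wp : w ≤ p
  pz : PrZ p r

/-- The bonus of an exceptional vertex. -/
noncomputable def s3 (p : ℕ) : ℝ := e1 p / (256 * ((p : ℝ) + 3) ^ 2)

/-- The slope of the bound on codegrees, `(b - 1) (w + 1)/(w + 2)`. -/
noncomputable def mJ (p w : ℕ) : ℝ := ((p : ℝ) + 2) * (((w : ℝ) + 1) / ((w : ℝ) + 2))

/-- What the exceptional vertex `z` owes. -/
noncomputable def ndj {V : Type} (G : SimpleGraph V) (p w r a : ℕ) (X : Finset V) (z : V) : ℝ :=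
  max 0 ((kc G (nb G X z) (w + 1) : ℝ) - c1 p w * (1 - pt p w r) * (a : ℝ) ^ (w + 1) -
    Mt p w r a * TZ G p r X z + s3 p * (a : ℝ) ^ (w + 1))

/-! ### Numbers -/

/-- (GCJ) Numbers. PROOF. `w ≥ 1`, `b - r ≥ 3`: `3 (w+1) < 2 r`, so `r ≥ 4`, `2 (b-r) < 2 r`: PrZ; `0 < φ < 1` by `s1`; `c₁ (1-φ) = c₁ (2r - (w+1)(b-r))/(2r) ≥ c₁/(2r) ≥
(b-1)/(2r) > 1/2` (`c₁ ≥ b - 1` as `1 ≤ w+1 ≤ b-2`; `b - 1 ≥ r + 2`). (2) `J = b - 1 - B = p + 2 - B`. `J = 0`: both sides are `0` (`ww (b-1) = 1`). `J = 1`: equality: `q = b - 1 ≥ r`, `S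
= c₁ (1 - (w+1)/(2(b-1)))`, `choose (b-2) (w+1) = c₁ (1 - (w+1)/(b-1))`, `choose (b-2) w = c₁ (w+1)/(b-1)`. `J ≥ 2`: left side `≤ J c₁ (1/2 - (J-1)) ≤ - c₁ ≤ S B - choose B (w+1)`
(`choose (p+1) w ≤ c₁`, `S B ≥ 0`). (3) As the proof of `Pool.IA7.PWTStmt`: for `q = B + 1 ≤ r` (`ww = 0`) the worst case is `q = r`, there `c₁ + (w+2) c₁ (1-φ) - (w+3)
choose (r-1) (w+1) ≥ 1/(2r)` by `s2` (integers). For `q ≥ r`: `q` times the slack is `F q = c₁ q + (w+2) c₁ ((1-φ) q + φ b (q-r)/(b-r)) - (w+3)(w+2) choose q (w+2)`, concave on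
the integers `≥ r`, `F b = 0`, `F r ≥ 1/2`; so `F q ≥ (b-q)/(b-r) (1/2)` and the slack is `≥ 1/(2 b (b-r)) ≥ 1/(2 b^2)`. -/
def GCJStmt : Prop :=
  ∀ p w r : ℕ, PrJ p w r → PrZ p r ∧ 0 < pt p w r ∧ pt p w r < 1 ∧
    1 / 2 < c1 p w * (1 - pt p w r) ∧
    (∀ B ≤ p + 2, 1 / 2 * ((p + 1).choose w : ℝ) * ((p : ℝ) + 2 - B) -
        c1 p w * (((p : ℝ) + 2 - B) * ((p : ℝ) + 1 - B)) ≤
      c1 p w * (1 - pt p w r) + pt p w r * c1 p w * ww p r B - (B.choose (w + 1) : ℝ)) ∧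
    (∀ B ≤ p + 1, ((w : ℝ) + 3) * (B.choose (w + 1) : ℝ) + 1 / (2 * ((p : ℝ) + 3) ^ 2) ≤
      c1 p w + ((w : ℝ) + 2) * (c1 p w * (1 - pt p w r) + pt p w r * c1 p w * ww p r B))

/-- (NUA) Real numbers. `th = (w+1)/(w+2)`. PROOF. `w = 1` (`b ≥ 9`): `X = 3/5`: `8/9 ≤ 24/25`, `(2/3 + (1 + 1/567)/8)^2 ≤ 0.6272 ≤ 16/25`. `w ≥ 2`: `X = (4w+3)/(4w+9)`; `∑
X^(k+1) = X (1 - X^(w+1))/(1-X) = ((4w+3)/6)(1 - X^(w+1))`. `s1`, `rp` give `2 r ≥ 3w + 4`, `b - 1 ≥ (3w+8)/2`. FACTS for all `w ≥ 2`: (a) `th^(w+1) ≤ 27/64`, as `(1 + 1/n)^n` is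
increasing (or `(1+1/n)^n ≥ 1 + 1 + (n-1)/(2n) + (n-1)(n-2)/(6 n^2) ≥ 64/27` for `n = w + 1 ≥ 3`); (b) `X^(w+1) ≤ 0.271`: `w ≤ 8` by computation, `w ≥ 9`: `≤ exp (-6(w+1)/(4w+9)) ≤ exp
(-4/3) ≤ 0.264`; (c) the base in the second inequality is `≤ 1 - (w+4)/((w+2)(3w+8)) + 2/(7 b^2 (3w+8))`, its power `≤ exp (- s (w+1))`; `s (w+1) = (w+4)(w+1)/((w+2)(3w+8)) -
(small) ≥ 0.32` for `w ≥ 2`, `exp (-0.32) ≤ 0.7262`; so `0.7262 + 0.271 ≤ 1`. First inequality: `(w+1)(27/64) ≤ ((4w+3)/6)(0.729)` for `w ≥ 2`. (`exp (-x) ≤ 1/(1 + x +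
x^2/2)`, `Real.add_one_le_exp`; numerical margins: 0.07 and 0.0165 at `w = 2`.) -/
def NUAStmt : Prop :=
  ∀ p w r : ℕ, PrJ p w r → ∃ X : ℝ, 0 < X ∧ X < 1 ∧
    ((w : ℝ) + 1) * (((w : ℝ) + 1) / ((w : ℝ) + 2)) ^ (w + 1) ≤
      ∑ k ∈ range (w + 1), X ^ (k + 1) ∧
    (((w : ℝ) + 1) / ((w : ℝ) + 2) +
        (1 + 1 / (7 * ((p : ℝ) + 3) ^ 2)) / ((p : ℝ) + 2)) ^ (w + 1) ≤ 1 - X ^ (w + 1)

/-- (NUJ) The hypotheses of BGJ. Needs NUA. PROOF. `g = th + (1 + 1/(7 b^2))/(b-1)`; the first part for `a ≥ 56 b^2 r`. `D = b a + r`, `y = D - n ∈ [0, D]`, `x = y/(b a)`. `y ≥ b a` (`n ≤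
r`): first alternative with `K₁` large: `n (w+1) (th a)^(w+1) ≤ r (w+1) a^(w+1)`, `y (a^(w+1) - (y/b)^(w+1)) ≥ - (b a + r)((a + r)^(w+1) - a^(w+1)) ≥ - K a^(w+1)`. `X b a ≤ y ≤ b a`: first
alternative: `n = b a (1-x) + r`, `(1-x)(w+1) th^(w+1) ≤ (1-x) ∑ X^(k+1) ≤ (1-x) ∑ x^(k+1) = x (1 - x^(w+1))` (geometric sum), `K₁ ≥ r (w+1)`. `y ≤ X b a`: second alternative. -/
def NUJStmt : Prop :=
  ∀ p w r : ℕ, PrJ p w r → ∃ g : ℝ, 0 ≤ g ∧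
    (∃ a₁ : ℕ, ∀ a : ℕ, a₁ ≤ a →
      (mJ p w + 1 + 1 / (8 * ((p : ℝ) + 3) ^ 2)) * a + r ≤ ((p : ℝ) + 2) * (g * a)) ∧
    ∃ K₁ : ℝ, 0 < K₁ ∧ ∃ a₂ : ℕ, ∀ a : ℕ, a₂ ≤ a → ∀ n : ℕ, n ≤ (p + 3) * a + r →
      ((n : ℝ) * ((w : ℝ) + 1) * (((w : ℝ) + 1) / ((w : ℝ) + 2) * (a : ℝ)) ^ (w + 1) ≤
          ((((p + 3) * a + r : ℕ) : ℝ) - n) * ((a : ℝ) ^ (w + 1) -
            (((((p + 3) * a + r : ℕ) : ℝ) - n) / ((p : ℝ) + 3)) ^ (w + 1)) +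
            K₁ * (a : ℝ) ^ (w + 1) ∨
        (g * (a : ℝ)) ^ (w + 1) ≤ (a : ℝ) ^ (w + 1) -
            (((((p + 3) * a + r : ℕ) : ℝ) - n) / ((p : ℝ) + 3)) ^ (w + 1))

/-! ### Local -/

/-- (ZSJ) A vertex with a moderate number of missing pairs owes nothing (as `Pool.JB7.ZSMStmt`). Needs GCJ, EXB, TRV, BRK. PROOF. As there, with GCJ (2): `∑_L (S B
- choose B (w+1)) ≥ ∑ ((1/2) choose (p+1) w J - c₁ J (J-1))`, `∑ J (J-1) ≤ 2 b e1 (1+e)^(b-2) ∑ J`, and `c₁ = choose (p+1) w (b-1)/(w+1) ≤ choose (p+1) w b/2`, `b^2 e1 (1+e)^(b-2) ≤ 1/2` (`e1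
= 1/(16 b^3)`), so the sum is `≥ 0`. At the end EXB with `j = w + 1` as in `Pool.IA7.ZSTStmt`. -/
def ZSJStmt : Prop :=
  ∀ p w r : ℕ, PrJ p w r → ∀ δ : ℝ, 0 < δ → ∃ e₀ : ℝ, 0 < e₀ ∧
    e₀ ≤ 1 / (64 * ((p : ℝ) + 3) ^ 2) ∧
    ∀ C : ℝ, 0 < C → ∃ a₀ : ℕ, ∀ a ≥ a₀, ∀ {V : Type} [DecidableEq V] (G : SimpleGraph V)
    (e f C' : ℝ) (W : Finset V) (P : Fin (p + 3) → Finset V) (U : Finset V), 0 ≤ e → e ≤ e₀ →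
    f ≤ 1 / (64 * ((p : ℝ) + 3) ^ 2) → Stq G p a e f C C' W P U → CB G W (p + 3) →
    ∀ z ∈ W, ∀ i, (∀ k, k ≠ i → ((non G (P k) z).card : ℝ) ≤ e1 p * a) →
    (∀ y ∈ P i, ¬ G.Adj z y) →
    (kc G (nb G (un P) z) (w + 1) : ℝ) ≤ c1 p w * (1 - pt p w r) * (a : ℝ) ^ (w + 1) +
      Mt p w r a * TZ G p r (un P) z + δ * (a : ℝ) ^ (w + 1)

/-- (LOJ) The local inequality with debts (as `Pool.JB7.LOGStmt`, `Pool.IA7.LOTStmt`). Needs GCJ, MLG, CMP, UCL, XLO, SPX, ZSJ, TRV. PROOF. As LOT up to the last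
step: `df - M ∑ min ≥ c₁ a^(w+1) (x (1-φ)) - .. `, precisely: `df ≥ TT - es + (tot/2) choose (p+1) w a^w - ∑_(z ∈ U) κ z - ..`, `x = card U + d`, `TT - es ≥ x c₁ ((1-e) a - 1)^(w+1)`, `M ∑
min ≤ M [x N + ∑ mm - ∑_z TZ] + ..`; for `z ∈ U₀`: `κ z ≤ c₁ (1-φ) a^(w+1) + Mt TZ - s3 a^(w+1) + ndj` (definition of `ndj`); for `z ∈ U \ U₀`: ZSJ with `δ = ε/(8 C')`. -/
def LOJStmt : Prop :=
  ∀ p w r : ℕ, PrJ p w r → ∀ C ε : ℝ, 0 < C → 0 < ε → ∃ f : ℝ, 0 < f ∧ f ≤ 1 ∧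
    ∀ C' : ℝ, 0 < C' → ∃ e₀ : ℝ, 0 < e₀ ∧ e₀ ≤ 1 / 2 ∧ ∃ a₀ : ℕ, ∀ a ≥ a₀,
    ∀ {V : Type} [DecidableEq V] (G : SimpleGraph V) (e : ℝ) (W : Finset V)
    (P : Fin (p + 3) → Finset V) (U U₀ : Finset V),
    0 ≤ e → e ≤ e₀ → Stq G p a e f C C' W P U → U₀ ⊆ U →
    (∀ z ∈ U \ U₀, ∃ i, (∀ k, k ≠ i → ((non G (P k) z).card : ℝ) ≤ e1 p * a) ∧
      ∀ y ∈ P i, ¬ G.Adj z y) →
    CB G W (p + 3) → W.card ≤ (p + 3) * a + r →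
    (((p + 3) * a + r : ℕ) : ℝ) ≤ W.card + C' →
    Mt p w r a * ∑ L ∈ clq G W (p + 3), min (r : ℝ) (XX G p r a W L) +
        (1 - pt p w r) * c1 p w * (a : ℝ) ^ (w + 1) *
          ((((p + 3) * a + r : ℕ) : ℝ) - W.card) +
        s3 p * (a : ℝ) ^ (w + 1) * U₀.card ≤
      df G p w r a W + ∑ z ∈ U₀, ndj G p w r a (un P) z + ε * (a : ℝ) ^ (w + 1)

/-- (NCJ) The debt changes little (as `Pool.JB7.NDCStmt`). Needs GCO0, GCJ. PROOF. `kc G (nb G X z) (w+1)` is monotone in `X`; the `L ∈ clq G (un P) b` which are not in `un P'` number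
`≤ C' (2 b a)^(b-1)`, `0 ≤ ww ≤ 1`, `Mt (2 b a)^(b-1) C' ≤ K a^w`; `max` is 1-Lipschitz. -/
def NCJStmt : Prop :=
  ∀ p w r : ℕ, PrJ p w r → ∀ C' : ℝ, 0 < C' → ∃ K : ℝ, 0 < K ∧ ∀ a : ℕ, 1 ≤ a →
    ∀ {V : Type} [DecidableEq V] (G : SimpleGraph V) (P P' : Fin (p + 3) → Finset V) (z : V),
    (∀ i, P' i ⊆ P i) → (∀ i, (P i).card ≤ 2 * a) → ((un P \ un P').card : ℝ) ≤ C' →
    (∀ L ∈ clq G (un P) (p + 3), (nb G L z).card ≤ p + 2) →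
    ndj G p w r a (un P') z ≤ ndj G p w r a (un P) z + K * (a : ℝ) ^ w

/-- (NDJ) A vertex with many neighbours owes nothing (as `Pool.GY7.NDMYStmt`). Needs GCJ, PRG (`Pool.GY7.PRGStmt`), PRF (1), (7), ZYG, CCK0 (1), GCO0. PROOF. `n = w + 2`, `x =
n_z/((b-1) a)`, `y = th - 1/(27 (n+1))`, `th = (n-1)/n`. `S B ≥ c₁ ((w+3)/2 - (w+1) b/(2 (B+1)))` for all `B ≤ b - 1`; PRG (`y₀ = y`), PRF (1): `∑_L S B ≥ c₁ a^b ((n+1)/2 - (n-1)/(2x) - K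
ε)`. ZYG: `κ ≤ c₁ x^(n-1) a^(w+1)`. `H x = (n+1) x - (n-1) - 2 x^n` is concave on `x ≥ 0`, `H 1 = 0`, `H th = (1 - 1/n)(1 - 2 (1 - 1/n)^(n-1)) ≥ 2/27` (`n ≥ 3`: `(1 - 1/n)^(n-1) ≤ 4/9`, i.e.
`(1 + 1/m)^m ≥ 9/4`, `m = n - 1 ≥ 2`; binomial theorem), `H y ≥ H th - (n+1)(th - y) ≥ 1/27`. PRF (7): `x ≤ 1 - δ`, `δ = e1/(8 (b-1))`; concavity between `y` and `1`: `H x ≥ ((1-x)/(1-y)) H y
≥ δ/27`. So `κ/a^(w+1) - ∑_L S B/a^b ≤ - c₁ (H x/(2x) - K ε) ≤ - c₁ δ/54 + c₁ K ε < - s3` (`c₁ ≥ b - 1`, `c₁ δ/54 ≥ e1/432 ≥ 2 s3`) for `ε` small: `ndj = 0`. -/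
def NDJStmt : Prop :=
  ∀ p w r : ℕ, PrJ p w r → ∃ e₀ : ℝ, 0 < e₀ ∧ ∀ C : ℝ, ∃ a₀ : ℕ, ∀ a ≥ a₀,
    ∀ {V : Type} [DecidableEq V] (G : SimpleGraph V) (e : ℝ) (W : Finset V)
    (P : Fin (p + 3) → Finset V) (U : Finset V), Str G p a e C W P U → 0 ≤ e → e ≤ e₀ →
    CB G W (p + 3) → ∀ z ∈ U,
    ((p : ℝ) + 2) * (((w : ℝ) + 1) / ((w : ℝ) + 2) - 1 / (27 * ((w : ℝ) + 3))) * a ≤
      ((nb G (un P) z).card : ℝ) → ndj G p w r a (un P) z = 0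

/-- (NBJ) What is owed is less than the loss (as `Pool.JB7.NBGStmt`). Needs GCJ, PRF, CCK0 (1), GCO0. PROOF. GCJ (3) for `B ≤ p + 1`, equality `(w+3) c₁ = c₁ + (w+2) S` for `B = p + 2`:
`∑_L ((w+3) choose B (w+1) - (w+2) S B) ≤ c₁ N - (1/(2 b^2)) #{B ≤ p+1}`, `#{B = p+2} ≤ ∑ B/(p+2) ≤ (th + ε) a^b`, so `#{B ≤ p+1} ≥ (1/(w+2) - 2 ε) a^b ≥ a^b/(2 b)`. If `ndj > 0`: `(w+2) ndj + κ =
(w+3) κ - (w+2)(c₁ (1-φ) a^(w+1) + Mt TZ) + (w+2) s3 a^(w+1) ≤ (c₁ - 1/(4 b^3) + b s3 + K ε) a^(w+1)`. -/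
def NBJStmt : Prop :=
  ∀ p w r : ℕ, PrJ p w r → ∃ e₀ : ℝ, 0 < e₀ ∧ ∀ C : ℝ, ∃ a₀ : ℕ, ∀ a ≥ a₀,
    ∀ {V : Type} [DecidableEq V] (G : SimpleGraph V) (e : ℝ) (W : Finset V)
    (P : Fin (p + 3) → Finset V) (U : Finset V), Str G p a e C W P U → 0 ≤ e → e ≤ e₀ →
    CB G W (p + 3) → ∀ z ∈ U, ((nb G (un P) z).card : ℝ) ≤ mJ p w * a →
    0 < ndj G p w r a (un P) z →
    ((w : ℝ) + 2) * ndj G p w r a (un P) z + kc G (nb G (un P) z) (w + 1) ≤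
      (c1 p w - 1 / (32 * ((p : ℝ) + 3) ^ 3)) * (a : ℝ) ^ (w + 1)

/-- (BGJ) Many vertices of small degree: `Pool.GU7.BDAgen.BDA_gen` (file `Pool/Agent/H46/GU/BDAgen.lean`) with the hypothesis `hN` replaced by a disjunction (there: the case `q n ≤ D`
gives the first, the case `D ≤ q n` the second inequality). Copy that file, delete `q`, and replace the case distinction on `q n ≤ D` by the one on `hN`. Needs SPL, ZYG, TTR. -/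
def BGJStmt : Prop :=
  ∀ (p w r : ℕ) (m th g : ℝ), r ≤ p + 3 → m ≤ ((p : ℝ) + 2) * th → 0 ≤ g → ∀ a₁ : ℕ,
    (∀ a : ℕ, a₁ ≤ a →
      (m + 1 + 1 / (8 * ((p : ℝ) + 3) ^ 2)) * a + r ≤ ((p : ℝ) + 2) * (g * a)) →
    ∀ K₁ : ℝ, 0 < K₁ → ∀ a₂ : ℕ,
    (∀ a : ℕ, a₂ ≤ a → ∀ n : ℕ, n ≤ (p + 3) * a + r →
      ((n : ℝ) * ((w : ℝ) + 1) * (th * (a : ℝ)) ^ (w + 1) ≤
          ((((p + 3) * a + r : ℕ) : ℝ) - n) * ((a : ℝ) ^ (w + 1) -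
            (((((p + 3) * a + r : ℕ) : ℝ) - n) / ((p : ℝ) + 3)) ^ (w + 1)) +
            K₁ * (a : ℝ) ^ (w + 1) ∨
        (g * (a : ℝ)) ^ (w + 1) ≤ (a : ℝ) ^ (w + 1) -
            (((((p + 3) * a + r : ℕ) : ℝ) - n) / ((p : ℝ) + 3)) ^ (w + 1))) →
    ∃ K : ℝ, 0 < K ∧ ∀ δ C : ℝ, 0 < δ → ∃ a₀ : ℕ, ∀ a ≥ a₀,
    ∀ {V : Type} [Fintype V] [DecidableEq V] (G : SimpleGraph V), G8 G p r a →
    ∀ (z : V) (A : Finset V), A ⊆ nb G univ z →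
    (∀ v ∈ A, ∃ (e : ℝ) (P : Fin (p + 3) → Finset V) (U : Finset V),
      Str G p a e C (nb G univ v) P U ∧ 0 ≤ e ∧ e ≤ e1 p ∧
      ((Pool.KR.co G v z).card : ℝ) ≤ m * a) →
    ∑ v ∈ A, ((p + 2).choose (w + 1) * (a : ℝ) ^ (w + 1) -
      (kc G (Pool.KR.co G v z) (w + 1) : ℝ)) ≤
      ((w : ℝ) + 2) * df G p w r a (nb G univ z) + K * (a : ℝ) ^ (w + 1) +
        δ * A.card * (a : ℝ) ^ (w + 1)

/-- (BDJ) The instance for `PrJ`. Needs BGJ, NUJ (`m = mJ p w = (p+2) th`). -/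
def BDJStmt : Prop :=
  ∀ p w r : ℕ, PrJ p w r → ∃ K : ℝ, 0 < K ∧ ∀ δ C : ℝ, 0 < δ → ∃ a₀ : ℕ, ∀ a ≥ a₀,
    ∀ {V : Type} [Fintype V] [DecidableEq V] (G : SimpleGraph V), G8 G p r a →
    ∀ (z : V) (A : Finset V), A ⊆ nb G univ z →
    (∀ v ∈ A, ∃ (e : ℝ) (P : Fin (p + 3) → Finset V) (U : Finset V),
      Str G p a e C (nb G univ v) P U ∧ 0 ≤ e ∧ e ≤ e1 p ∧
      ((Pool.KR.co G v z).card : ℝ) ≤ mJ p w * a) →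
    ∑ v ∈ A, (c1 p w * (a : ℝ) ^ (w + 1) - (kc G (Pool.KR.co G v z) (w + 1) : ℝ)) ≤
      ((w : ℝ) + 2) * df G p w r a (nb G univ z) + K * (a : ℝ) ^ (w + 1) +
        δ * A.card * (a : ℝ) ^ (w + 1)

/-- (BUJ) A vertex which is not good can pay (as `Pool.JB7.BUGStmt`, `Pool.GX7.BUDXStmt`, `Pool.GU7.BUDStmt`). Needs GCJ, NDJ, NBJ, BDJ. PROOF. `A' = {v ∈ A : ndj > 0}`; NDJ: `n_z < (b-1)(th - 1/(27
(w+3))) a`, so `card (co G v z) ≤ n_z + C ≤ mJ a`. NBJ, BDJ (`δ = 1/(64 b^3)`), `kc G (co G v z) (w+1) ≤ kc G (nb G (un P) z) (w+1) + C (2 b a)^w`: `(w+2) ∑_(A') ndj ≤ (w+2) df + K a^(w+1) - (1/(128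
b^3)) card A' a^(w+1)`; if `card A' ≥ M` this is `≤ (w+2)(df - C₀ a^(w+1))`; if `card A' < M`: `∑ ndj ≤ M (c₁ + 1) a^(w+1) ≤ (C₂ - C₀) a^(w+1)`. -/
def BUJStmt : Prop :=
  ∀ p w r : ℕ, PrJ p w r → ∀ C₀ : ℝ, 0 < C₀ → ∃ C₂ : ℝ, 0 < C₂ ∧ ∃ e₀ : ℝ, 0 < e₀ ∧
    e₀ ≤ e1 p ∧ ∀ C : ℝ, ∃ a₀ : ℕ, ∀ a ≥ a₀,
    ∀ {V : Type} [Fintype V] [DecidableEq V] (G : SimpleGraph V), G8 G p r a →
    ∀ (e : ℝ), 0 ≤ e → e ≤ e₀ → ∀ (z : V) (A : Finset V)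
    (P : V → Fin (p + 3) → Finset V) (U : V → Finset V), A ⊆ nb G univ z →
    (∀ v ∈ A, Str G p a e C (nb G univ v) (P v) (U v) ∧ z ∈ U v) →
    C₂ * (a : ℝ) ^ (w + 1) ≤ df G p w r a (nb G univ z) →
    ∑ v ∈ A, ndj G p w r a (un (P v)) z ≤
      df G p w r a (nb G univ z) - C₀ * (a : ℝ) ^ (w + 1)

/-- (GGJ) Two good strangers owe nothing (as `Pool.JB7.GGGStmt`). Needs GCJ, STG (`Pool.KR.STGStmt`), CCK0 (4). PROOF. As there: `co G v z ⊆ U ∪ U'`, so `kc G (nb G (un P) z) (w+1) ≤ (2 C)^(w+1)`, and `c₁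
(1-φ) a^(w+1) ≥ a^(w+1)/2 ≥ (2 C)^(w+1) + s3 a^(w+1)` (`TZ ≥ 0`). -/
def GGJStmt : Prop :=
  ∀ p w r : ℕ, PrJ p w r → ∃ e₀ : ℝ, 0 < e₀ ∧ e₀ ≤ e1 p / 2 ∧ ∀ (C : ℝ) (C₁ : ℕ), ∃ a₀ : ℕ,
    ∀ a ≥ a₀, ∀ {V : Type} [Fintype V] [DecidableEq V] (G : SimpleGraph V), G8 G p r a →
    ∀ (e : ℝ), 0 ≤ e → e ≤ e₀ → ∀ (v z : V) (P P' : Fin (p + 3) → Finset V) (U U' : Finset V),
    Str G p a e C (nb G univ v) P U → Str G p a e C (nb G univ z) P' U' → z ∈ U →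
    a ^ (p + 4) ≤ (a + C₁) * kc G (nb G univ z) (p + 3) →
    ndj G p w r a (un P) z = 0

open Classical in
/-- (WLJ) The local inequality for a good vertex (as `Pool.JB7.WLGStmt`, `Pool.IA7.WVTStmt`). Needs GCJ, STC, MMC, REG (`Pool.JB7.REGStmt`), LOJ, NCJ, CCK0 (1), TTR (3), ZYG. `c = min
(s3 p) (c₁ (1-φ))`. -/
def WLJStmt : Prop :=
  ∀ p w r : ℕ, PrJ p w r → ∃ c : ℝ, 0 < c ∧ c ≤ 1 ∧ ∀ C₂ : ℝ, 0 < C₂ →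
    ∃ (C : ℝ) (C₁ : ℕ), 0 < C ∧
    ∀ ε e : ℝ, 0 < ε → 0 < e → e ≤ 1 / 8 → ∃ a₀ : ℕ, ∀ a ≥ a₀,
    ∀ {V : Type} [Fintype V] [DecidableEq V] (G : SimpleGraph V), G8 G p r a → ∀ v : V,
    df G p w r a (nb G univ v) < C₂ * (a : ℝ) ^ (w + 1) →
    ∃ (P : Fin (p + 3) → Finset V) (U : Finset V), Str G p a e C (nb G univ v) P U ∧
      a ^ (p + 4) ≤ (a + C₁) * kc G (nb G univ v) (p + 3) ∧
      Mt p w r a * ∑ L ∈ clq G (nb G univ v) (p + 3), min (r : ℝ) (XX G p r a (nb G univ v) L) -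
          Mt p w r a * ((r : ℝ) / ((p : ℝ) + 4)) * kc G (nb G univ v) (p + 3) +
          ltt p w r * (a : ℝ) ^ (w + 1) +
          (if U = ∅ ∧ (nb G univ v).card = (p + 3) * a + r then 0
            else c * (a : ℝ) ^ (w + 1)) ≤
        df G p w r a (nb G univ v) + ∑ z ∈ U, ndj G p w r a (un P) z + ε * (a : ℝ) ^ (w + 1)

/-- (WGJ) Nearly all vertices are clean (as `Pool.JB7.WGGStmt`, `Pool.IA7.WGTStmt`). Needs GCJ, WLJ, BUJ, GGJ, PHI0. PROOF. As WGG with `a^(w+1)` in place of `a`: `C₀ = 2^b c₁ pt r + ltt + c + 1`. -/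
def WGJStmt : Prop :=
  ∀ p w r : ℕ, PrJ p w r → ∃ C : ℝ, 0 < C ∧ ∀ ε e K : ℝ, 0 < ε → 0 < e → e ≤ 1 / 8 →
    ∃ a₀ : ℕ, ∀ a ≥ a₀, ∀ {V : Type} [Fintype V] [DecidableEq V] (G : SimpleGraph V),
    G8 G p r a →
    ∑ v, df G p w r a (nb G univ v) ≤
      (ltt p w r * (a : ℝ) ^ (w + 1) + K * (a : ℝ) ^ w) * Fintype.card V →
    ∃ (D : Finset V) (P : V → Fin (p + 3) → Finset V), (∀ v ∈ D, Cl G p r a e C v (P v)) ∧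
      ((univ \ D).card : ℝ) ≤ ε * Fintype.card V

/-! ### Rows of the board `ia` with `PrV` -/

/-- (CQV) `Pool.IA7.CQTStmt` with `PrV p w r`: copy `Pool/Agent/H*/IA/CQT.lean`. -/
def CQVStmt : Prop :=
  ∀ p w r : ℕ, PrV p w r → ∀ K₀ : ℕ, ∃ K : ℝ, 0 < K ∧ ∃ a₀ : ℕ, ∀ a ≥ a₀,
    ∀ {V : Type} [Fintype V] [DecidableEq V] (G : SimpleGraph V) (Q : Fin (p + 4) → Finset V)
    (σ : Fin (p + 4) → ℕ), G8 G p r a → Par G Q → (∀ j, σ j ≤ K₀) →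
    (∀ j, (Q j).card ≤ a + K₀) →
    (∀ j, ∀ u ∈ Q j, ∑ k ∈ univ.erase j, (non G (Q k) u).card = σ j + dl G p r a (un Q) u) →
    (∀ u ∈ un Q, (nb G (univ \ un Q) u).card ≤ dl G p r a (un Q) u) →
    (∀ u ∈ un Q, (dl G p r a (un Q) u : ℝ) ≤ a / (12 * ((p : ℝ) + 3))) →
    ((∑ u ∈ un Q, dl G p r a (un Q) u : ℕ) : ℝ) ≤ K₀ * a →
    (kc G univ (w + 3) : ℝ) - kc G (univ \ un Q) (w + 3) - kc G (un Q) (w + 3) +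
        (p + 1).choose w * (a : ℝ) ^ w *
          ∑ j, ∑ u ∈ Q j, ((∑ k ∈ univ.erase j, (non G (Q k) u).card : ℕ) : ℝ) ^ 2 +
        1 / 10 * c1 p w * (a : ℝ) ^ (w + 1) * ∑ u ∈ un Q, (dl G p r a (un Q) u : ℝ) ≤
      1 / 2 * c1 p w * (a : ℝ) ^ (w + 1) * ∑ u ∈ un Q, (dl G p r a (un Q) u : ℝ) +
        K * (a : ℝ) ^ (w + 1)

/-- (NTV) `Pool.IA7.NTSStmt` with `PrV p w r`: copy `Pool/Agent/H*/IA/NTS.lean`. -/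
def NTVStmt : Prop :=
  ∀ p w r : ℕ, PrV p w r → ∀ K : ℕ, ∀ K₁ : ℝ, 0 < K₁ → ∃ K₂ : ℝ, 0 < K₂ ∧ ∃ a₀ : ℕ, ∀ a ≥ a₀,
    ∀ s, 1 ≤ s → s ≤ K → ∀ n σ : Fin (p + 4) → ℕ, (∀ j, n j + σ j = a + s) → (∀ j, σ j ≤ K) →
    ∑ j, σ j + r = (p + 3) * s →
    (s = 1 → Yt p w a K₁ n σ ≤ kt p w r a + K₂ * (a : ℝ) ^ (w + 1)) ∧
    (2 ≤ s → Yt p w a K₁ n σ * ((((p + 3) * a + r + a + 1 : ℕ)) : ℝ) ≤
      kt p w r a * ((((p + 3) * a + r + a + s : ℕ)) : ℝ))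

/-- (NVV) `Pool.IA7.NVTStmt` with `PrV p w r`: copy `Pool/Agent/H*/IA/NVT.lean`. -/
def NVVStmt : Prop :=
  ∀ p w r : ℕ, PrV p w r → ∃ K : ℝ, 0 < K ∧ ∃ a₀ : ℕ, ∀ a ≥ a₀, 0 < kt p w r a ∧
    (TT (p + 3) (w + 2) a r : ℝ) * ((((p + 3) * a + r + a + 1 : ℕ)) : ℝ) -
        ((w : ℝ) + 3) * kt p w r a ≤
      (ltt p w r * (a : ℝ) ^ (w + 1) + K * (a : ℝ) ^ w) * ((((p + 3) * a + r + a + 1 : ℕ)) : ℝ)

/-- (RFV) `Pool.IA7.RFTStmt` with `PrV p w r`: copy `Pool/Agent/H*/IA/RFT.lean`. -/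
def RFVStmt : Prop :=
  ∀ p w r a : ℕ, PrV p w r → 1 ≤ a → ∃ R : SimpleGraph (Fin ((p + 3) * a + r + a + 1)),
    (∀ v, (R.neighborSet v).ncard ≤ (p + 3) * a + r) ∧ R.CliqueFree (p + 5) ∧
    kt p w r a ≤
      ({s : Finset (Fin ((p + 3) * a + r + a + 1)) | R.IsNClique (w + 3) s}.ncard : ℝ)

/-- (MNV) `Pool.IA7.MNTStmt` with `PrV p w r`: copy `Pool/Agent/H*/IA/MNT.lean`. Needs DLC, KBT, CRT, CQV, CST, AUG, MOD, NTV. -/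
def MNVStmt : Prop :=
  ∀ p w r : ℕ, PrV p w r → ∀ C : ℝ, 0 < C → ∃ a₀ : ℕ, ∀ a ≥ a₀,
    ∀ {V : Type} [Fintype V] [DecidableEq V] (G : SimpleGraph V) (Q : Fin (p + 4) → Finset V),
    G8 G p r a → Cor G p r a C Q → (un Q).Nonempty ∧ (un Q).card ≤ (p + 5) * a ∧
    (((kc G univ (w + 3) : ℝ) - kc G (univ \ un Q) (w + 3)) *
        ((((p + 3) * a + r + a + 1 : ℕ)) : ℝ) ≤ kt p w r a * (un Q).card ∨
      ∃ G' : SimpleGraph V, (∀ u ∈ un Q, (nb G' (un Q) u).card ≤ (p + 3) * a + r) ∧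
        CB G' (un Q) (p + 4) ∧
        (kc G univ (w + 3) : ℝ) - kc G (univ \ un Q) (w + 3) ≤ kc G' (un Q) (w + 3))

/-! ### Assembly -/

/-- (BKJ) `Pool.IA7.BKTStmt` with `PrJ p w r`. Needs GCJ (1), WGJ, NVV and the rows FND, ARR, COR of `HZ7`. -/
def BKJStmt : Prop :=
  ∀ p w r : ℕ, PrJ p w r → ∃ C : ℝ, 0 < C ∧ ∃ a₀ : ℕ, ∀ a ≥ a₀,
    ∀ {V : Type} [Fintype V] [DecidableEq V] (G : SimpleGraph V), G8 G p r a → Nonempty V →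
    kt p w r a * Fintype.card V ≤
      kc G univ (w + 3) * ((((p + 3) * a + r + a + 1 : ℕ)) : ℝ) →
    ∃ Q, Cor G p r a C Q

/-- (FNJ) `Pool.IA7.FNTStmt` with `PrJ p w r`. Needs GCJ (1), BKJ, MNV, RFV, NVV. -/
def FNJStmt : Prop :=
  ∀ p w r : ℕ, PrJ p w r → ∃ a₀ : ℕ, ∀ a ≥ a₀,
    ∃ (n : ℕ) (R : SimpleGraph (Fin n)), 1 ≤ n ∧ n ≤ (p + 5) * a ∧
      (∀ v, (R.neighborSet v).ncard ≤ (p + 3) * a + r) ∧ R.CliqueFree (p + 5) ∧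
      ∀ (m : ℕ) (H : SimpleGraph (Fin m)),
        (∀ v, (H.neighborSet v).ncard ≤ (p + 3) * a + r) → H.CliqueFree (p + 5) →
        {s : Finset (Fin m) | H.IsNClique (w + 3) s}.ncard * n ≤
          {s : Finset (Fin n) | R.IsNClique (w + 3) s}.ncard * m

/-- (CMB) Both boards together. Needs FNJ and `Pool.IA7.FNTStmt`. PROOF. `w = 1`, `p ≤ 5`: `interval_cases`, `PrT` holds; otherwise `PrJ` (`s2` is a hypothesis). -/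
def CMBStmt : Prop :=
  FNJStmt → Pool.IA7.FNTStmt → ∀ p w r : ℕ, 1 ≤ w → w ≤ p → r ≤ p →
    (w + 1) * (p + 3 - r) < 2 * r →
    2 * r * (w + 3) * (r - 1).choose (w + 1) +
      (w + 2) * (w + 1) * (p + 3 - r) * (p + 2).choose (w + 1) <
        2 * r * (w + 3) * (p + 2).choose (w + 1) →
    ∃ a₀ : ℕ, ∀ a ≥ a₀,
    ∃ (n : ℕ) (R : SimpleGraph (Fin n)), 1 ≤ n ∧ n ≤ (p + 5) * a ∧
      (∀ v, (R.neighborSet v).ncard ≤ (p + 3) * a + r) ∧ R.CliqueFree (p + 5) ∧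
      ∀ (m : ℕ) (H : SimpleGraph (Fin m)),
        (∀ v, (H.neighborSet v).ncard ≤ (p + 3) * a + r) → H.CliqueFree (p + 5) →
        {s : Finset (Fin m) | H.IsNClique (w + 3) s}.ncard * n ≤
          {s : Finset (Fin n) | R.IsNClique (w + 3) s}.ncard * m

end Pool.KC7
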