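import Pool.Agent.H18.KC.Stmts

/-!
# KLS, part C: the first steps of the polarisation inequality (modules PO1, PO2)
-/

set_option autoImplicit false

open Finset

namespace Pool.Agent.H18.KC

section PO

variable {α V : Type} [DecidableEq α] [NormedAddCommGroup V] [InnerProductSpace ℝ V]
  (ρ : Equiv.Perm α →* (V →ₗ[ℝ] V))

theorem PO1_mul (σ τ : Equiv.Perm α) (v : V) : ρ (σ * τ) v = ρ σ (ρ τ v) := by
  rw [map_mul]
  rfl

theorem PO1_one (v : V) : ρ 1 v = v := by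
  rw [map_one]
  rfl

theorem PO1_inner (hρ : ∀ σ v, ‖ρ σ v‖ = ‖v‖) (σ : Equiv.Perm α) (a b : V) :
    inner ℝ (ρ σ a) (ρ σ b) = inner ℝ a b := by
  let f : V →ₗᵢ[ℝ] V := ⟨ρ σ, hρ σ⟩
  exact f.inner_map_map a b

theorem PO1_adj (hρ : ∀ σ v, ‖ρ σ v‖ = ‖v‖) (a b : α) (v w : V) :
    inner ℝ (ρ (Equiv.swap a b) v) w = inner ℝ v (ρ (Equiv.swap a b) w) := by
  have h := PO1_inner ρ hρ (Equiv.swap a b) v (ρ (Equiv.swap a b) w)
  rw [← PO1_mul, Equiv.swap_mul_self, PO1_one] at h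
  exact h

theorem PO1_const (hρ : ∀ σ v, ‖ρ σ v‖ = ‖v‖) (v : V) (a a' b : α) (hab : b ≠ a)
    (hab' : b ≠ a') (hv : ρ (Equiv.swap a a') v = v) :
    inner ℝ v (ρ (Equiv.swap a' b) v) = inner ℝ v (ρ (Equiv.swap a b) v) := by
  have h1 : Equiv.swap a' b = Equiv.swap a a' * (Equiv.swap a b * Equiv.swap a a') := by
    rw [← mul_assoc, Equiv.mul_swap_eq_swap_mul (Equiv.swap a a') a b, Equiv.swap_apply_left,
      Equiv.swap_apply_of_ne_of_ne hab hab', mul_assoc, Equiv.swap_mul_self, mul_one]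
  rw [h1, PO1_mul, PO1_mul, hv, ← PO1_adj ρ hρ, hv]

theorem PO1_norm (hρ : ∀ σ v, ‖ρ σ v‖ = ‖v‖) (v : V) (x : ℕ → α) (S : Finset ℕ) (b : α) (c : ℝ)
    (hb : ∀ i ∈ S, x i ≠ b) (hi : ∀ i ∈ S, ∀ j ∈ S, i ≠ j → x i ≠ x j)
    (hv : ∀ i ∈ S, ∀ j ∈ S, ρ (Equiv.swap (x i) (x j)) v = v)
    (hc : ∀ i ∈ S, inner ℝ v (ρ (Equiv.swap (x i) b) v) = c) :
    ‖v + ∑ i ∈ S, ρ (Equiv.swap (x i) b) v‖ ^ 2 = ((S.card : ℝ) + 1) * (‖v‖ ^ 2 + S.card * c) := by
  have h1 : inner ℝ v (∑ i ∈ S, ρ (Equiv.swap (x i) b) v) = S.card * c := by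
    rw [inner_sum, Finset.sum_congr rfl hc, Finset.sum_const, nsmul_eq_mul]
  have h2 : ∀ i ∈ S, ∀ j ∈ S, inner ℝ (ρ (Equiv.swap (x i) b) v) (ρ (Equiv.swap (x j) b) v) =
      if i = j then ‖v‖ ^ 2 else c := by
    intro i hiS j hjS
    by_cases hij : i = j
    · subst hij
      rw [if_pos rfl, PO1_inner ρ hρ, real_inner_self_eq_norm_sq]
    · rw [if_neg hij, PO1_adj ρ hρ, ← PO1_mul]
      have h3 : Equiv.swap (x i) b * Equiv.swap (x j) b =
          Equiv.swap (x j) b * Equiv.swap (x i) (x j) := by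
        rw [Equiv.mul_swap_eq_swap_mul (Equiv.swap (x j) b) (x i) (x j),
          Equiv.swap_apply_of_ne_of_ne (hi i hiS j hjS hij) (hb i hiS), Equiv.swap_apply_left]
      rw [h3, PO1_mul, hv i hiS j hjS]
      exact hc j hjS
  have h3 : ‖∑ i ∈ S, ρ (Equiv.swap (x i) b) v‖ ^ 2 =
      S.card * (‖v‖ ^ 2 + ((S.card : ℝ) - 1) * c) := by
    rw [← real_inner_self_eq_norm_sq, sum_inner]
    have h4 : ∀ i ∈ S, inner ℝ (ρ (Equiv.swap (x i) b) v) (∑ j ∈ S, ρ (Equiv.swap (x j) b) v) =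
        ‖v‖ ^ 2 + ((S.card : ℝ) - 1) * c := by
      intro i hiS
      rw [inner_sum, Finset.sum_congr rfl (h2 i hiS), ← Finset.add_sum_erase S _ hiS,
        if_pos rfl]
      congr 1
      have h5 : ∀ j ∈ S.erase i, (if i = j then ‖v‖ ^ 2 else c) = c := by
        intro j hj
        rw [if_neg (fun h => (Finset.mem_erase.mp hj).1 h.symm)]
      rw [Finset.sum_congr rfl h5, Finset.sum_const, Finset.card_erase_of_mem hiS, nsmul_eq_mul]
      have h6 : 1 ≤ S.card := Finset.card_pos.mpr ⟨i, hiS⟩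
      rw [Nat.cast_sub h6, Nat.cast_one]
    rw [Finset.sum_congr rfl h4, Finset.sum_const, nsmul_eq_mul]
  rw [norm_add_sq_real, h1, h3]
  ring

/-- the two quadratic identities for a vector of type `(p, q)` -/
theorem PO1_two (hρ : ∀ σ v, ‖ρ σ v‖ = ‖v‖) (x : ℕ → α) (p q : ℕ) (v : V)
    (hx : ∀ i j, i < p + q → j < p + q → x i = x j → i = j) (hp : 1 ≤ p) (hq : 1 ≤ q)
    (h1 : Inv ρ x 0 p v) (h2 : Inv ρ x p (p + q) v) :
    ∃ c : ℝ, ‖Up ρ x p v‖ ^ 2 = ((p : ℝ) + 1) * (‖v‖ ^ 2 + p * c) ∧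
      inner ℝ (Up ρ x p v) v = ‖v‖ ^ 2 + p * c ∧
      ∀ i0, i0 < p → ‖v + ∑ j ∈ Ico p (p + q), ρ (Equiv.swap (x j) (x i0)) v‖ ^ 2 =
        ((q : ℝ) + 1) * (‖v‖ ^ 2 + q * c) := by
  have hne : ∀ i j, i < p + q → j < p + q → i ≠ j → x i ≠ x j := fun i j hi hj hij h =>
    hij (hx i j hi hj h)
  -- the constant
  have hc : ∀ i j, i < p → p ≤ j → j < p + q →
      inner ℝ v (ρ (Equiv.swap (x i) (x j)) v) = inner ℝ v (ρ (Equiv.swap (x 0) (x p)) v) := by
    intro i j hi hj hj'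
    have e1 : inner ℝ v (ρ (Equiv.swap (x i) (x j)) v) =
        inner ℝ v (ρ (Equiv.swap (x 0) (x j)) v) := by
      by_cases hi0 : i = 0
      · rw [hi0]
      · exact PO1_const ρ hρ v (x 0) (x i) (x j) (hne _ _ (by omega) (by omega) (by omega))
          (hne _ _ (by omega) (by omega) (by omega))
          (h1 0 i (by omega) (by omega) (by omega) (by omega))
    have e2 : inner ℝ v (ρ (Equiv.swap (x 0) (x j)) v) =
        inner ℝ v (ρ (Equiv.swap (x 0) (x p)) v) := by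
      by_cases hj0 : j = p
      · rw [hj0]
      · rw [Equiv.swap_comm (x 0) (x j), Equiv.swap_comm (x 0) (x p)]
        exact PO1_const ρ hρ v (x p) (x j) (x 0) (hne _ _ (by omega) (by omega) (by omega))
          (hne _ _ (by omega) (by omega) (by omega))
          (h2 p j (by omega) (by omega) (by omega) (by omega))
    rw [e1, e2]
  refine ⟨inner ℝ v (ρ (Equiv.swap (x 0) (x p)) v), ?_, ?_, ?_⟩
  · have := PO1_norm ρ hρ v x (range p) (x p) (inner ℝ v (ρ (Equiv.swap (x 0) (x p)) v))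
      (fun i hi => hne _ _ (by rw [mem_range] at hi; omega) (by omega)
        (by rw [mem_range] at hi; omega))
      (fun i hi j hj hij => hne _ _ (by rw [mem_range] at hi; omega)
        (by rw [mem_range] at hj; omega) hij)
      (fun i hi j hj => h1 i j (by omega) (by rw [mem_range] at hi; omega) (by omega)
        (by rw [mem_range] at hj; omega))
      (fun i hi => hc i p (by rw [mem_range] at hi; omega) (by omega) (by omega))
    rw [card_range] at this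
    exact this
  · unfold Up
    rw [inner_add_left, real_inner_self_eq_norm_sq, real_inner_comm, inner_sum]
    congr 1
    rw [Finset.sum_congr rfl (fun i hi => hc i p (by rw [mem_range] at hi; omega) (by omega)
      (by omega)), Finset.sum_const, card_range, nsmul_eq_mul]
  · intro i0 hi0
    have := PO1_norm ρ hρ v x (Ico p (p + q)) (x i0)
      (inner ℝ v (ρ (Equiv.swap (x 0) (x p)) v))
      (fun i hi => hne _ _ (by rw [mem_Ico] at hi; omega) (by omega)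
        (by rw [mem_Ico] at hi; omega))
      (fun i hi j hj hij => hne _ _ (by rw [mem_Ico] at hi; omega)
        (by rw [mem_Ico] at hj; omega) hij)
      (fun i hi j hj => h2 i j (by rw [mem_Ico] at hi; omega) (by rw [mem_Ico] at hi; omega)
        (by rw [mem_Ico] at hj; omega) (by rw [mem_Ico] at hj; omega))
      (fun i hi => by
        rw [mem_Ico] at hi
        rw [Equiv.swap_comm]
        exact hc i0 i hi0 hi.1 hi.2)
    rw [Nat.card_Ico, Nat.add_sub_cancel_left] at this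
    exact this

end PO

/-- PO1: first step of the polarisation inequality -/
theorem po1_thm : PO1Stmt := by
  intro α V _ _ _ ρ x p q v hρ hx hp hq h1 h2
  obtain ⟨c, e1, _, e3⟩ := PO1_two ρ hρ x p q v hx hp hq h1 h2
  have h3 := e3 0 (by omega)
  have hq' : (0 : ℝ) < (q : ℝ) + 1 := by positivity
  have hp' : (0 : ℝ) ≤ (p : ℝ) := by positivity
  have h4 : 0 ≤ ((q : ℝ) + 1) * (‖v‖ ^ 2 + q * c) := by
    rw [← h3]
    positivity
  have h5 : 0 ≤ ‖v‖ ^ 2 + q * c := nonneg_of_mul_nonneg_right h4 hq'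
  rw [e1]
  have h6 : 0 ≤ ((p : ℝ) + 1) * p * (‖v‖ ^ 2 + q * c) := by positivity
  nlinarith [h6]

/-- PO2: the next steps of the polarisation inequality -/
theorem po2_thm (hUIN : UINStmt) : PO2Stmt := by
  intro α V _ _ _ ρ x p q u hρ hx hp hq h1 h2
  have hx' : ∀ i j, i < p + (q + 1) → j < p + (q + 1) → x i = x j → i = j := fun i j hi hj h =>
    hx i j (by omega) (by omega) h
  have h2' : Inv ρ x p (p + (q + 1)) u := h2
  obtain ⟨c, e1, e2, _⟩ := PO1_two ρ hρ x p (q + 1) u hx' hp (by omega) h1 h2'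
  obtain ⟨i1, i2⟩ := hUIN α V ρ x p (q + 1) u hx' (by omega) h1 h2'
  set v := Up ρ x p u with hv
  have hx2 : ∀ i j, i < p + 1 + q → j < p + 1 + q → x i = x j → i = j := fun i j hi hj h =>
    hx i j (by omega) (by omega) h
  have i2' : Inv ρ x (p + 1) (p + 1 + q) v := by
    have : p + 1 + q = p + (q + 1) := by omega
    rw [this]
    exact i2
  obtain ⟨c', f1, _, f3⟩ := PO1_two ρ hρ x (p + 1) q v hx2 (by omega) hq i1 i2'
  have g3 := f3 p (by omega)
  set Z := v + ∑ j ∈ Ico (p + 1) (p + 1 + q), ρ (Equiv.swap (x j) (x p)) v with hZ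
  have hZu : inner ℝ Z u = ((q : ℝ) + 1) * inner ℝ v u := by
    rw [hZ, inner_add_left, sum_inner]
    have : ∀ j ∈ Ico (p + 1) (p + 1 + q), inner ℝ (ρ (Equiv.swap (x j) (x p)) v) u =
        inner ℝ v u := by
      intro j hj
      rw [mem_Ico] at hj
      rw [PO1_adj ρ hρ, h2 j p (by omega) (by omega) (by omega) (by omega)]
    rw [Finset.sum_congr rfl this, Finset.sum_const, Nat.card_Ico, Nat.add_sub_cancel_left,
      nsmul_eq_mul]
    ring
  have hvu : ((p : ℝ) + 1) * inner ℝ v u = ‖v‖ ^ 2 := by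
    rw [e2, e1]
  have hcs : (inner ℝ Z u) ^ 2 ≤ ‖Z‖ ^ 2 * ‖u‖ ^ 2 := by
    have := abs_real_inner_le_norm Z u
    have h0 := abs_nonneg (inner ℝ Z u : ℝ)
    calc (inner ℝ Z u) ^ 2 = |(inner ℝ Z u : ℝ)| ^ 2 := (sq_abs _).symm
      _ ≤ (‖Z‖ * ‖u‖) ^ 2 := pow_le_pow_left₀ h0 this 2
      _ = _ := by ring
  rw [hZu, g3] at hcs
  have hp1 : (0 : ℝ) < (p : ℝ) + 1 := by positivity
  have hq1 : (0 : ℝ) < (q : ℝ) + 1 := by positivity
  -- `(q + 1) ‖v‖⁴ ≤ (p + 1)² (‖v‖² + q c') ‖u‖²`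
  have hkey : ((q : ℝ) + 1) * ‖v‖ ^ 4 ≤ ((p : ℝ) + 1) ^ 2 * ((‖v‖ ^ 2 + q * c') * ‖u‖ ^ 2) := by
    have h7 : ((q : ℝ) + 1) * (((q : ℝ) + 1) * ‖v‖ ^ 4) ≤
        ((q : ℝ) + 1) * (((p : ℝ) + 1) ^ 2 * ((‖v‖ ^ 2 + q * c') * ‖u‖ ^ 2)) := by
      have h8 := mul_le_mul_of_nonneg_left hcs (sq_nonneg ((p : ℝ) + 1))
      calc ((q : ℝ) + 1) * (((q : ℝ) + 1) * ‖v‖ ^ 4)
          = ((p : ℝ) + 1) ^ 2 * ((((q : ℝ) + 1) * inner ℝ v u) ^ 2) := by
            have : ‖v‖ ^ 4 = (((p : ℝ) + 1) * inner ℝ v u) ^ 2 := by rw [hvu]; ring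
            rw [this]
            ring
        _ ≤ _ := h8
        _ = _ := by ring
    exact le_of_mul_le_mul_left h7 hq1
  rw [f1]
  push_cast
  have h9 : 0 ≤ ((p : ℝ) + 2) := by positivity
  have h10 := mul_le_mul_of_nonneg_left hkey h9
  nlinarith [h10]

end Pool.Agent.H18.KC
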